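import Pool.Agent.Helper70.HI.ClassDvd
import Pool.Agent.Helper34.HI.Rel
import Pool.Agent.Helper67.HI.Disc
import Pool.Agent.Helper32.HI.Size
import Pool.Agent.Helper60.HI.Sz
import Pool.Agent.Helper30.HI.Sing
import Pool.Agent.Helper37.HI.Elim
import Pool.Agent.Helper49.HI.Comb

/-!
# HI, block HC: for most `t` the polynomial `P(t, x)` has no integral root
-/

set_option autoImplicit false

namespace Pool.Agent.Helper26.HI

open MvPolynomial

noncomputable section

private lemma V_cast85 {r : ℕ} (P : Polynomial (MvPolynomial (Fin r) ℤ)) (p : ℕ) (t : Fin r → ℤ) (x : ℤ) :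
    ((V P t x : ℤ) : ZMod p) = (P.map ((Int.castRingHom (ZMod p)).comp (eval t))).eval (x : ZMod p) := by
  unfold V
  rw [← Polynomial.map_map, Polynomial.eval_intCast_map]
  rfl

private lemma comp_congr85 {r : ℕ} {p : ℕ} {t t' : Fin r → ℤ} (h : ∀ k, (p : ℤ) ∣ t k - t' k) :
    (Int.castRingHom (ZMod p)).comp (eval t) = (Int.castRingHom (ZMod p)).comp (eval t') := by
  apply MvPolynomial.ringHom_ext
  · intro a
    simp
  · intro k
    have h1 := (ZMod.intCast_zmod_eq_zero_iff_dvd (t k - t' k) p).2 (h k)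
    push_cast at h1
    simp only [RingHom.comp_apply, eval_X, eq_intCast]
    exact sub_eq_zero.1 h1

private lemma V_congr85 {r : ℕ} (P : Polynomial (MvPolynomial (Fin r) ℤ)) {p : ℕ} {t t' : Fin r → ℤ} {x x' : ℤ}
    (h : ∀ k, (p : ℤ) ∣ t k - t' k) (hx : (p : ℤ) ∣ x - x') : ((V P t x : ℤ) : ZMod p) = ((V P t' x' : ℤ) : ZMod p) := by
  rw [V_cast85, V_cast85, comp_congr85 h]
  have h1 := (ZMod.intCast_zmod_eq_zero_iff_dvd (x - x') p).2 hx
  push_cast at h1
  rw [sub_eq_zero.1 h1]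

/-- the number of the roots modulo `p` -/
private lemma roots_le85 {r : ℕ} (P : Polynomial (MvPolynomial (Fin r) ℤ)) (hPm : P.Monic) (p : ℕ) (hp : p.Prime)
    (t : Fin r → ℤ) : ((Finset.range p).filter fun x : ℕ => (p : ℤ) ∣ V P t x).card ≤ P.natDegree := by
  classical
  have : Fact p.Prime := ⟨hp⟩
  set q : Polynomial (ZMod p) := P.map ((Int.castRingHom (ZMod p)).comp (eval t)) with hq
  have hqm : q.Monic := hPm.map _
  have h1 : ((Finset.range p).filter fun x : ℕ => (p : ℤ) ∣ V P t x).card ≤ q.roots.toFinset.card := by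
    apply Finset.card_le_card_of_injOn (fun x : ℕ => (x : ZMod p))
    · intro x hx
      rw [Finset.coe_filter] at hx
      rw [Finset.mem_coe, Multiset.mem_toFinset, Polynomial.mem_roots hqm.ne_zero, Polynomial.IsRoot.def]
      have h2 := V_cast85 P p t x
      rw [(ZMod.intCast_zmod_eq_zero_iff_dvd _ p).2 hx.2] at h2
      rw [← hq] at h2
      rw [h2]
      simp
    · intro x hx y hy hxy
      rw [Finset.coe_filter] at hx hy
      have h3 : x % p = y % p := (ZMod.natCast_eq_natCast_iff' x y p).1 hxy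
      rwa [Nat.mod_eq_of_lt (Finset.mem_range.1 hx.1), Nat.mod_eq_of_lt (Finset.mem_range.1 hy.1)] at h3
  calc _ ≤ _ := h1
    _ ≤ Multiset.card q.roots := Multiset.toFinset_card_le _
    _ ≤ q.natDegree := Polynomial.card_roots' _
    _ ≤ P.natDegree := Polynomial.natDegree_map_le

open scoped Classical in
/-- the points of a residue class -/
private def cls85 {r : ℕ} (P : Polynomial (MvPolynomial (Fin r) ℤ)) (p h : ℕ) (c : (Fin r → ℕ) × ℕ) : Finset (Fin r → ℕ) :=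
  (box r (p * h)).filter fun t => (∀ k, (p : ℤ) ∣ (t k : ℤ) - (c.1 k : ℤ)) ∧
    ∃ x : ℤ, (p : ℤ) ∣ x - (c.2 : ℤ) ∧ V P (fun k => (t k : ℤ)) x = 0

/-- the polynomial of a linear relation -/
private def Qp85 {r m n : ℕ} (a : Fin m → Fin r → ℕ) (q : Fin m × Fin n → ℤ) : Polynomial (MvPolynomial (Fin r) ℤ) :=
  ∑ j : Fin m × Fin n, Polynomial.monomial (j.2 : ℕ) (monomial (Finsupp.equivFunOnFinite.symm (a j.1)) (q j))

private lemma Qp_V85 {r m n : ℕ} (a : Fin m → Fin r → ℕ) (q : Fin m × Fin n → ℤ) (t : Fin r → ℤ) (x : ℤ) :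
    V (Qp85 a q) t x = ∑ j, q j * ((∏ k, t k ^ a j.1 k) * x ^ (j.2 : ℕ)) := by
  unfold V Qp85
  rw [Polynomial.map_sum, Polynomial.eval_finsetSum]
  refine Finset.sum_congr rfl fun j _ => ?_
  rw [Polynomial.map_monomial, Polynomial.eval_monomial, eval_monomial, Finsupp.prod_fintype _ _ (fun _ => pow_zero _)]
  simp only [Finsupp.equivFunOnFinite_symm_apply_apply, mul_assoc]

private lemma Qp_coeff85 {r m n : ℕ} (a : Fin m → Fin r → ℕ) (q : Fin m × Fin n → ℤ) (b : ℕ) :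
    (Qp85 a q).coeff b = ∑ j : Fin m × Fin n, if (j.2 : ℕ) = b then
      monomial (Finsupp.equivFunOnFinite.symm (a j.1)) (q j) else 0 := by
  unfold Qp85
  rw [Polynomial.finsetSum_coeff]
  refine Finset.sum_congr rfl fun j _ => ?_
  rw [Polynomial.coeff_monomial]

private lemma Qp_ne85 {r m n : ℕ} {a : Fin m → Fin r → ℕ} (ha : Function.Injective a) {q : Fin m × Fin n → ℤ} (hq : q ≠ 0) :
    Qp85 a q ≠ 0 := by
  obtain ⟨j₀, hj₀⟩ := Function.ne_iff.1 hq
  intro h
  have h1 : ((Qp85 a q).coeff j₀.2).coeff (Finsupp.equivFunOnFinite.symm (a j₀.1)) = q j₀ := by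
    rw [Qp_coeff85, coeff_sum, Finset.sum_eq_single j₀]
    · rw [if_pos rfl, coeff_monomial, if_pos rfl]
    · intro j _ hj
      split_ifs with h2
      · rw [coeff_monomial, if_neg]
        intro h3
        apply hj
        have h4 : a j.1 = a j₀.1 := Finsupp.equivFunOnFinite.symm.injective h3
        exact Prod.ext (ha h4) (Fin.ext h2)
      · rw [coeff_zero]
    · intro h2
      exact absurd (Finset.mem_univ _) h2
  rw [h, Polynomial.coeff_zero, coeff_zero] at h1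
  exact hj₀ h1.symm

private lemma Qp_deg85 {r m n : ℕ} (a : Fin m → Fin r → ℕ) (q : Fin m × Fin n → ℤ) (hn : 1 ≤ n) :
    (Qp85 a q).natDegree < n := by
  unfold Qp85
  have : (∑ j : Fin m × Fin n, Polynomial.monomial (j.2 : ℕ) (monomial (Finsupp.equivFunOnFinite.symm (a j.1)) (q j))).natDegree
      ≤ n - 1 := by
    apply Polynomial.natDegree_sum_le_of_forall_le
    intro j _
    refine (Polynomial.natDegree_monomial_le _).trans ?_
    have := j.2.isLt
    omega
  omega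

private lemma Qp_tot85 {r m n : ℕ} (a : Fin m → Fin r → ℕ) (q : Fin m × Fin n → ℤ) (A : ℕ) (hA : ∀ i, ∑ k, a i k ≤ A)
    (b : ℕ) : ((Qp85 a q).coeff b).totalDegree ≤ A := by
  rw [Qp_coeff85]
  apply totalDegree_finsetSum_le
  intro j _
  split_ifs with h
  · refine (totalDegree_monomial_le _ _).trans ?_
    rw [Finsupp.sum_fintype _ _ (fun _ => rfl)]
    simpa using hA j.1
  · rw [totalDegree_zero]
    exact Nat.zero_le _

/-- the points of a regular residue class lie on a hypersurface of bounded degree -/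
private lemma cls_le85 {r : ℕ} (P : Polynomial (MvPolynomial (Fin r) ℤ)) (hn : 1 ≤ P.natDegree) {κ₀ B m : ℕ}
    (hroot : ∀ N : ℕ, 1 ≤ N → ∀ (t : Fin r → ℤ) (x : ℤ), (∀ k, |t k| ≤ N) → V P t x = 0 → |x| ≤ B * (N : ℤ) ^ κ₀)
    {a : Fin m → Fin r → ℕ} (ha : Function.Injective a)
    (hcomb : ∀ κ : Fin m × Fin P.natDegree → (Fin r →₀ ℕ), Function.Injective κ →
      ∑ j : Fin m × Fin P.natDegree, ((∑ k, a j.1 k) + κ₀ * (j.2 : ℕ)) < ∑ j, ∑ k, κ j k)
    {A : ℕ} (hA : ∀ i, ∑ k, a i k ≤ A) {δ : ℕ}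
    (hδ : ∀ Q : Polynomial (MvPolynomial (Fin r) ℤ), Q ≠ 0 → Q.natDegree < P.natDegree →
      (∀ n, (Q.coeff n).totalDegree ≤ A) → ∃ R : MvPolynomial (Fin r) ℤ, R ≠ 0 ∧ R.totalDegree ≤ δ ∧
      ∀ (t : Fin r → ℤ) (x : ℤ), V P t x = 0 → V Q t x = 0 → eval t R = 0)
    {p h : ℕ} (hp : p.Prime) (hh : 1 ≤ h)
    (hbig : (Fintype.card (Fin m × Fin P.natDegree)).factorial * B ^ (∑ j : Fin m × Fin P.natDegree, (j.2 : ℕ)) *
      h ^ (∑ j : Fin m × Fin P.natDegree, ((∑ k, a j.1 k) + κ₀ * (j.2 : ℕ))) < p)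
    (c : (Fin r → ℕ) × ℕ) (hc : ∀ k, c.1 k < p)
    (h1 : ¬ (p : ℤ) ∣ V P.derivative (fun k => (c.1 k : ℤ)) (c.2 : ℤ)) :
    h * (cls85 P p h c).card ≤ δ * h ^ r := by
  classical
  set Λ : ℕ := ∑ j : Fin m × Fin P.natDegree, ((∑ k, a j.1 k) + κ₀ * (j.2 : ℕ)) with hΛ
  have hp0 : 0 < p := hp.pos
  have hph : 1 ≤ p * h := Nat.mul_pos hp0 hh
  -- the points
  let Y : Type := {y : (Fin r → ℕ) × ℤ // y.1 ∈ box r (p * h) ∧ (∀ k, (p : ℤ) ∣ (y.1 k : ℤ) - (c.1 k : ℤ)) ∧
    (p : ℤ) ∣ y.2 - (c.2 : ℤ) ∧ V P (fun k => (y.1 k : ℤ)) y.2 = 0}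
  obtain ⟨q, hq0, hq⟩ := exists_rel (J := Fin m × Fin P.natDegree) (Y := Y)
    (fun y j => (∏ k, (y.1.1 k : ℤ) ^ a j.1 k) * y.1.2 ^ (j.2 : ℕ)) (by
      intro y
      have h2 := class_dvd P p hp (fun k => (c.1 k : ℤ)) (c.2 : ℤ) h1 (J := Fin m × Fin P.natDegree)
        (fun j => a j.1) (fun j => (j.2 : ℕ)) (Λ + 1) (fun κ hκ => hcomb κ hκ) (fun i k => ((y i).1.1 k : ℤ))
        (fun i => (y i).1.2) (fun i k => (y i).2.2.1 k) (fun i => (y i).2.2.2.1) (fun i => (y i).2.2.2.2)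
      have habs : ∀ i k, |((y i).1.1 k : ℤ)| ≤ ((p * h : ℕ) : ℤ) := by
        intro i k
        have h3 := (mem_box.1 (y i).2.1) k
        rw [abs_of_nonneg (Int.natCast_nonneg _)]
        exact_mod_cast h3.le
      have h4 := det_le (J := Fin m × Fin P.natDegree) (fun j => a j.1) (fun j => (j.2 : ℕ)) κ₀ B (p * h)
        (fun i k => ((y i).1.1 k : ℤ)) (fun i => (y i).1.2) habs
        (fun i => hroot (p * h) hph _ _ (habs i) (y i).2.2.2.2)
      rw [← hΛ] at h4
      apply Int.eq_zero_of_abs_lt_dvd h2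
      refine lt_of_le_of_lt h4 ?_
      have h5 : (Fintype.card (Fin m × Fin P.natDegree)).factorial * B ^ (∑ j : Fin m × Fin P.natDegree, (j.2 : ℕ)) *
          (p * h) ^ Λ < p ^ (Λ + 1) := by
        rw [mul_pow, pow_succ]
        calc _ = p ^ Λ * ((Fintype.card (Fin m × Fin P.natDegree)).factorial *
              B ^ (∑ j : Fin m × Fin P.natDegree, (j.2 : ℕ)) * h ^ Λ) := by ring
          _ < p ^ Λ * p := Nat.mul_lt_mul_of_pos_left hbig (pow_pos hp0 _)
      exact_mod_cast h5)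
  obtain ⟨R, hR0, hRδ, hR⟩ := hδ (Qp85 a q) (Qp_ne85 ha hq0) (Qp_deg85 a q hn) (Qp_tot85 a q A hA)
  have h3 := sz_affine R hR0 δ hRδ (fun k => (c.1 k : ℤ)) p h hp0
  refine le_trans (Nat.mul_le_mul_left _ ?_) h3
  apply Finset.card_le_card_of_injOn (fun t : Fin r → ℕ => fun k => t k / p)
  · intro t ht
    unfold cls85 at ht
    rw [Finset.coe_filter] at ht
    obtain ⟨htb, htc, x, hx1, hx2⟩ := ht
    rw [Finset.mem_coe, Finset.mem_filter]
    refine ⟨mem_box.2 fun k => ?_, ?_⟩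
    · have h4 := mem_box.1 htb k
      exact Nat.div_lt_of_lt_mul h4
    · have h4 : (fun k => ((c.1 k : ℤ) + p * ((t k / p : ℕ) : ℤ))) = fun k => (t k : ℤ) := by
        funext k
        have h5 : t k % p = c.1 k := by
          have h6 := htc k
          have h7 : (t k : ℤ) % p = (c.1 k : ℤ) % p := Int.emod_eq_emod_iff_emod_sub_eq_zero.2
            (Int.emod_eq_zero_of_dvd h6)
          have h8 : (t k % p : ℕ) = (c.1 k % p : ℕ) := by exact_mod_cast h7
          rw [h8, Nat.mod_eq_of_lt (hc k)]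
        have h9 := Nat.mod_add_div (t k) p
        rw [h5] at h9
        exact_mod_cast h9
      simp only
      rw [h4]
      apply hR _ x hx2
      rw [Qp_V85]
      exact hq ⟨(t, x), htb, htc, hx1, hx2⟩
  · intro t ht t' ht' htt
    unfold cls85 at ht ht'
    rw [Finset.coe_filter] at ht ht'
    funext k
    have h4 : ∀ s : Fin r → ℕ, (∀ k, (p : ℤ) ∣ (s k : ℤ) - (c.1 k : ℤ)) → s k % p = c.1 k := by
      intro s hs
      have h7 : (s k : ℤ) % p = (c.1 k : ℤ) % p := Int.emod_eq_emod_iff_emod_sub_eq_zero.2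
        (Int.emod_eq_zero_of_dvd (hs k))
      have h8 : (s k % p : ℕ) = (c.1 k % p : ℕ) := by exact_mod_cast h7
      rw [h8, Nat.mod_eq_of_lt (hc k)]
    have h5 := h4 t ht.2.1
    have h6 := h4 t' ht'.2.1
    have h7 := Nat.mod_add_div (t k) p
    have h8 := Nat.mod_add_div (t' k) p
    have h9 : t k / p = t' k / p := congrFun htt k
    rw [← h7, ← h8, h5, h6, h9]

/-- **HC**: for most `t` the polynomial `P(t, x)` has no integral root -/
theorem hilbert_count {r : ℕ} (hr : 1 ≤ r) (P : Polynomial (MvPolynomial (Fin r) ℤ)) (hPm : P.Monic)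
    (hirr : Irreducible P) (hn : 2 ≤ P.natDegree) : ∃ C : ℕ, ∀ h : ℕ, 1 ≤ h → ∃ p₀ : ℕ, ∀ p : ℕ, p.Prime →
      p₀ ≤ p → h * (bad P (p * h)).card ≤ C * (p * h) ^ r := by
  classical
  obtain ⟨κ₀, B, hroot⟩ := root_le P hPm
  obtain ⟨m, a, ha, hcomb⟩ := comb r P.natDegree κ₀ hr hn
  obtain ⟨δ, hδ⟩ := elim P hPm hirr (Finset.univ.sup fun i => ∑ k, a i k)
  obtain ⟨Δ, hΔ0, hΔ⟩ := disc P hPm hirr
  obtain ⟨p₁, C₁, hsing⟩ := sing_count Δ hΔ0
  refine ⟨P.natDegree * δ + C₁, fun h hh => ?_⟩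
  set D₀ : ℕ := (Fintype.card (Fin m × Fin P.natDegree)).factorial * B ^ (∑ j : Fin m × Fin P.natDegree, (j.2 : ℕ)) *
      h ^ (∑ j : Fin m × Fin P.natDegree, ((∑ k, a j.1 k) + κ₀ * (j.2 : ℕ))) with hD₀
  refine ⟨max (max p₁ h) (D₀ + 1), fun p hp hpp => ?_⟩
  have hp1 : p₁ ≤ p := (le_max_left _ _).trans ((le_max_left _ _).trans hpp)
  have hph : h ≤ p := (le_max_right _ _).trans ((le_max_left _ _).trans hpp)
  have hpD : D₀ < p := (le_max_right _ _).trans hpp
  set Cl : Finset ((Fin r → ℕ) × ℕ) := ((box r p) ×ˢ (Finset.range p)).filter fun c =>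
    (p : ℤ) ∣ V P (fun k => (c.1 k : ℤ)) (c.2 : ℤ) ∧ ¬ (p : ℤ) ∣ V P.derivative (fun k => (c.1 k : ℤ)) (c.2 : ℤ) with hCl
  set Sg : Finset (Fin r → ℕ) := (box r (p * h)).filter fun t : Fin r → ℕ => (p : ℤ) ∣ eval (fun k => (t k : ℤ)) Δ with hSg
  -- the classes
  have hClcard : Cl.card ≤ P.natDegree * p ^ r := by
    rw [← card_box r p]
    apply Finset.card_le_mul_card_image_of_maps_to (f := Prod.fst)
    · intro c hc
      rw [hCl, Finset.mem_filter, Finset.mem_product] at hc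
      exact hc.1.1
    · intro t₀ _
      refine le_trans ?_ (roots_le85 P hPm p hp (fun k => (t₀ k : ℤ)))
      apply Finset.card_le_card_of_injOn Prod.snd
      · intro c hc
        rw [Finset.mem_coe, Finset.mem_filter, hCl, Finset.mem_filter, Finset.mem_product] at hc
        rw [Finset.mem_coe, Finset.mem_filter]
        obtain ⟨⟨⟨_, h2⟩, h3, _⟩, h4⟩ := hc
        subst h4
        exact ⟨h2, h3⟩
      · intro c hc c' hc' hcc
        rw [Finset.mem_coe, Finset.mem_filter] at hc hc'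
        exact Prod.ext (hc.2.trans hc'.2.symm) hcc
  -- the covering
  have hcov : bad P (p * h) ⊆ Sg ∪ Cl.biUnion (cls85 P p h) := by
    intro t ht
    obtain ⟨htb, x, hx⟩ := mem_bad.1 ht
    rw [Finset.mem_union]
    by_cases h2 : (p : ℤ) ∣ V P.derivative (fun k => (t k : ℤ)) x
    · left
      rw [hSg, Finset.mem_filter]
      refine ⟨mem_box.2 htb, hΔ _ x p ?_ h2⟩
      rw [hx]
      exact dvd_zero _
    · right
      have hx0 : 0 ≤ x % (p : ℤ) := Int.emod_nonneg _ (by exact_mod_cast hp.ne_zero)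
      have hxp : x % (p : ℤ) < p := Int.emod_lt_of_pos _ (by exact_mod_cast hp.pos)
      have hxc : (((x % (p : ℤ)).toNat : ℕ) : ℤ) = x % p := Int.toNat_of_nonneg hx0
      have hxd : (p : ℤ) ∣ x - (((x % (p : ℤ)).toNat : ℕ) : ℤ) := by
        rw [hxc]
        exact Int.dvd_self_sub_emod
      have htd : ∀ k, (p : ℤ) ∣ (t k : ℤ) - ((t k % p : ℕ) : ℤ) := by
        intro k
        push_cast
        exact Int.dvd_self_sub_emod
      rw [Finset.mem_biUnion]
      refine ⟨(fun k => t k % p, (x % (p : ℤ)).toNat), ?_, ?_⟩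
      · rw [hCl, Finset.mem_filter, Finset.mem_product]
        refine ⟨⟨mem_box.2 fun k => Nat.mod_lt _ hp.pos, ?_⟩, ?_, ?_⟩
        · rw [Finset.mem_range]
          have : (((x % (p : ℤ)).toNat : ℕ) : ℤ) < p := by rw [hxc]; exact hxp
          exact_mod_cast this
        · rw [← ZMod.intCast_zmod_eq_zero_iff_dvd, ← V_congr85 P htd hxd, hx]
          simp
        · rw [← ZMod.intCast_zmod_eq_zero_iff_dvd, ← V_congr85 P.derivative htd hxd, ZMod.intCast_zmod_eq_zero_iff_dvd]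
          exact h2
      · unfold cls85
        rw [Finset.mem_filter]
        exact ⟨mem_box.2 htb, htd, x, hxd, hx⟩
  have hcard : (bad P (p * h)).card ≤ Sg.card + ∑ c ∈ Cl, (cls85 P p h c).card :=
    (Finset.card_le_card hcov).trans ((Finset.card_union_le _ _).trans (Nat.add_le_add_left Finset.card_biUnion_le _))
  have h2 : h * Sg.card ≤ C₁ * (p * h) ^ r :=
    (Nat.mul_le_mul_right _ hph).trans (hsing p hp hp1 h)
  have h3 : ∀ c ∈ Cl, h * (cls85 P p h c).card ≤ δ * h ^ r := by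
    intro c hc
    rw [hCl, Finset.mem_filter, Finset.mem_product] at hc
    exact cls_le85 P (by omega) hroot ha hcomb (A := Finset.univ.sup fun i => ∑ k, a i k)
      (fun i => Finset.le_sup (f := fun i => ∑ k, a i k) (Finset.mem_univ i)) hδ hp hh hpD c (mem_box.1 hc.1.1) hc.2.2
  calc h * (bad P (p * h)).card ≤ h * (Sg.card + ∑ c ∈ Cl, (cls85 P p h c).card) := Nat.mul_le_mul_left _ hcard
    _ = h * Sg.card + ∑ c ∈ Cl, h * (cls85 P p h c).card := by rw [mul_add, Finset.mul_sum]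
    _ ≤ C₁ * (p * h) ^ r + Cl.card * (δ * h ^ r) := by
        apply Nat.add_le_add h2
        rw [← smul_eq_mul (Cl.card)]
        exact Finset.sum_le_card_nsmul _ _ _ h3
    _ ≤ C₁ * (p * h) ^ r + (P.natDegree * p ^ r) * (δ * h ^ r) :=
        Nat.add_le_add_left (Nat.mul_le_mul_right _ hClcard) _
    _ = (P.natDegree * δ + C₁) * (p * h) ^ r := by rw [mul_pow]; ring

end

end Pool.Agent.Helper26.HI
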